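import Mathlib
import Pool.Agent.Y529.DC.Poly

/-!
# `D(∼₀) = D(≠*, 2^h)` for all `h` with `2^(n^(1/k)) ≤ h(n) ≤ 2^(n^k)`

The class `D(≠*, 2^h)` is the same class `D(∼₀)` for all functions `h` whose logarithm is
polynomially related to the identity; more generally `D(≠*, 2^G) ⊆ D(≠*, 2^h)` whenever
`h(n) ≤ G(n^k)` and `G` is computable, nondecreasing and satisfies `n G(n) ≤ G(C n)` for some `C`.
The case `k = 2` contains `h(n) = n!`, hence the answers to both questions.
-/

set_option autoImplicit false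

namespace Pool.Agent.Results.MP_65fbb9_lc.PolynomialExponents

/-! ### Definitions used in the statement -/

open Classical in
/-- The oracle `A`: its characteristic function. -/
noncomputable def orc (A : Set ℕ) : ℕ →. ℕ := fun n => Part.some (if n ∈ A then 1 else 0)

/-- The number of positions below `n` at which `X` and `S` agree. -/
def agree (X S : ℕ → Bool) (n : ℕ) : ℕ := ((Finset.range n).filter fun i => X i = S i).card

/-- The lower density of the set of the positions at which `X` and `S` agree. -/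
noncomputable def lowerDens (X S : ℕ → Bool) : ℝ :=
  Filter.liminf (fun n : ℕ => (agree X S n : ℝ) / n) Filter.atTop

/-- The class `D(∼_p)`: the oracles `A` which compute a set `X` such that, for every computable
set `S`, the set of positions where `X` and `S` agree has lower density at most `p`. -/
def DSim (p : ℝ) : Set (Set ℕ) :=
  {A | ∃ X : ℕ → Bool, ComputableIn {orc A} X ∧
    ∀ S : ℕ → Bool, Computable S → lowerDens X S ≤ p}

/-- The class `D(≠*, h)`: the oracles `A` which compute a function `x` such that `x n = y n` for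
infinitely many `n`, for every computable function `y` with `y n < h n` for all `n`. -/
def DNeq (h : ℕ → ℕ) : Set (Set ℕ) :=
  {A | ∃ x : ℕ → ℕ, ComputableIn {orc A} x ∧
    ∀ y : ℕ → ℕ, Computable y → (∀ n, y n < h n) → ∃ᶠ n in Filter.atTop, x n = y n}

open Filter

/-- **`D(≠*, 2^h) = D(∼₀)` for all `h` between `2^(n^(1/k))` and `2^(n^k)`; with the answers to Q1
and Q2.** -/
theorem result :
    -- all `h` with `2^(n^(1/k)) ≤ h(n) ≤ 2^(n^k)` for almost all `n`
    (∀ (h : ℕ → ℕ) (k : ℕ), 1 ≤ k →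
      (∀ᶠ n in atTop, ∀ t : ℕ, t ^ k ≤ n → 2 ^ t ≤ h n) →
      (∀ᶠ n in atTop, h n ≤ 2 ^ (n ^ k)) →
      DNeq (fun n => 2 ^ h n) = DSim 0) ∧
    -- two bounds
    (∀ (g h : ℕ → ℕ) (k : ℕ), Computable g → Monotone g →
      (∃ C : ℕ, ∀ᶠ n in atTop, n * g n ≤ g (C * n)) →
      (∀ᶠ n in atTop, h n ≤ g (n ^ k)) →
      DNeq (fun n => 2 ^ g n) ⊆ DNeq (fun n => 2 ^ h n)) ∧
    -- the answers (negative) to Q1 and Q2
    DSim 0 = DNeq (fun n => 2 ^ (2 ^ n)) ∧
    DNeq (fun n => 2 ^ n.factorial) = DNeq (fun n => 2 ^ (2 ^ n)) :=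
  ⟨fun _ _ hk h1 h2 => Set.Subset.antisymm (Pool.Agent.Y529.DC.lower hk h1)
      (Pool.Agent.Y529.DC.upper h2),
    fun _ _ _ hg mg hS hle => Pool.Agent.Y529.DC.dneq_poly hg mg hS hle,
    Pool.Agent.Results.MP_65fbb9_lc.Coincidence.result.1,
    Pool.Agent.Results.MP_65fbb9_lc.Coincidence.result.2⟩

end Pool.Agent.Results.MP_65fbb9_lc.PolynomialExponents
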